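import Mathlib
import Pool.Agent.NH26.HF.Gen

/-!
Hall's conjecture in families given by two binary forms.
-/

set_option autoImplicit false

namespace Pool.Agent.Results.MP_e734ed_nt.BinaryFamilies

open Finset Polynomial Pool.Agent.NH26.HC Pool.Agent.NH26.HF Pool.Agent.Y670.RD

/-- The value at `(s, t)` of the binary form of degree `N` whose coefficient at `X^i Y^(N-i)` is
`a i`. -/
def form (N : ℕ) (a : ℕ → ℤ) (s t : ℤ) : ℤ := ∑ i ∈ range (N + 1), a i * s ^ i * t ^ (N - i)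

theorem exists_poly (N : ℕ) (a : ℕ → ℤ) : ∃ A : ℤ[X], A.natDegree ≤ N ∧
    ∀ s t : ℤ, fv N A s t = form N a s t := by
  refine ⟨∑ i ∈ range (N + 1), C (a i) * X ^ i, ?_, fun s t => ?_⟩
  · apply natDegree_sum_le_of_forall_le
    intro i hi
    refine (natDegree_C_mul_X_pow_le _ _).trans ?_
    have := mem_range.1 hi
    omega
  · unfold fv form
    refine sum_congr rfl fun k hk => ?_
    rw [finsetSum_coeff, sum_eq_single k]
    · rw [coeff_C_mul, coeff_X_pow, if_pos rfl, mul_one]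
    · intro i _ hik
      rw [coeff_C_mul, coeff_X_pow, if_neg (Ne.symm hik), mul_zero]
    · intro h; exact absurd hk h

theorem strict {x y : ℤ} {ε ε0 c F : ℝ} (hc : 0 < c) (hε0 : ε0 ≤ ε)
    (hne : y ^ 2 ≠ x ^ 3) (h : c * Q x y ^ (1 / 6 - ε0) ≤ F) :
    c / 2 * Q x y ^ (1 / 6 - ε) < F := by
  have hne' : y ^ 2 - x ^ 3 ≠ 0 := sub_ne_zero.2 hne
  have hQ1 := Q_one hne'
  have hQ0 : 0 < Q x y := by linarith
  have hle : Q x y ^ (1 / 6 - ε) ≤ Q x y ^ (1 / 6 - ε0) :=
    Real.rpow_le_rpow_of_exponent_le hQ1 (by linarith)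
  have hpos : 0 < Q x y ^ (1 / 6 - ε) := Real.rpow_pos_of_pos hQ0 _
  nlinarith

/-- **Hall's conjecture in families given by binary forms.**  Let `A`, `B` be binary forms with
integral coefficients, of degrees `2 n` and `3 n`, and let `ε > 0`.

(1) There is `c > 0` such that `x = A(s, t)`, `y = B(s, t)` satisfy
`|y² - x³| > c max(|x|³, y²)^(1/6 - ε)`, and so `|y² - x³| > c |x|^(1/2 - 3 ε)`, for all integers
`s`, `t` with `y² ≠ x³`.

(2) If the common divisors of `A(s, t)` and `B(s, t)` for coprime `s`, `t` all divide one nonzero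
integer, then for every finite set `T` of primes there is `c > 0` such that for all coprime `s`, `t`
with `y² ≠ x³` even the part of `y² - x³` prime to `T` exceeds `c max(|x|³, y²)^(1/6 - ε)`. -/
theorem result (n : ℕ) (a b : ℕ → ℤ) (ε : ℝ) (hε : 0 < ε) :
    (∃ c : ℝ, 0 < c ∧ ∀ s t x y : ℤ, x = form (2 * n) a s t → y = form (3 * n) b s t →
      y ^ 2 ≠ x ^ 3 →
      c * (max (|(x : ℝ)| ^ 3) ((y : ℝ) ^ 2)) ^ (1 / 6 - ε) < |(y : ℝ) ^ 2 - (x : ℝ) ^ 3| ∧
      c * |(x : ℝ)| ^ (1 / 2 - 3 * ε) < |(y : ℝ) ^ 2 - (x : ℝ) ^ 3|) ∧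
    ((∃ K : ℤ, K ≠ 0 ∧ ∀ s t d : ℤ, IsCoprime s t → d ∣ form (2 * n) a s t →
        d ∣ form (3 * n) b s t → d ∣ K) →
      ∀ T : Finset ℕ, (∀ p ∈ T, p.Prime) →
      ∃ c : ℝ, 0 < c ∧ ∀ s t x y : ℤ, IsCoprime s t → x = form (2 * n) a s t →
        y = form (3 * n) b s t → y ^ 2 ≠ x ^ 3 →
        c * (max (|(x : ℝ)| ^ 3) ((y : ℝ) ^ 2)) ^ (1 / 6 - ε) <
          |(y : ℝ) ^ 2 - (x : ℝ) ^ 3| * ∏ p ∈ T, (padicNorm p ((y ^ 2 - x ^ 3 : ℤ) : ℚ) : ℝ)) := by
  obtain ⟨A, hA, vA⟩ := exists_poly (2 * n) a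
  obtain ⟨B, hB, vB⟩ := exists_poly (3 * n) b
  set ε0 := min ε (1 / 6) with hε0
  have hε00 : 0 < ε0 := lt_min hε (by norm_num)
  have hε06 : ε0 ≤ 1 / 6 := min_le_right _ _
  have hε0ε : ε0 ≤ ε := min_le_left _ _
  constructor
  · obtain ⟨c, hc, hb⟩ := gen_bound A B n hA hB ε0 hε00 hε06
    refine ⟨c / 2, by positivity, ?_⟩
    intro s t x y hx hy hne
    have h1 := hb s t (by rw [vA, vB, ← hx, ← hy]; exact sub_ne_zero.2 hne)
    rw [vA, vB, ← hx, ← hy] at h1
    have h2 := strict hc hε0ε hne h1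
    push_cast at h2
    refine ⟨h2, ?_⟩
    by_cases hx0 : x = 0
    · by_cases he : 1 / 2 - 3 * ε = 0
      · rw [he, Real.rpow_zero]
        have he' : 1 / 6 - ε = 0 := by linarith
        rw [he', Real.rpow_zero] at h2
        exact h2
      · rw [hx0]
        push_cast
        rw [abs_zero, Real.zero_rpow he, mul_zero, abs_pos, sub_ne_zero]
        intro h0
        apply hne
        rw [hx0]
        exact_mod_cast h0
    · have hx1 : (1 : ℝ) ≤ |(x : ℝ)| := by exact_mod_cast Int.one_le_abs hx0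
      have hx00 : (0 : ℝ) < |(x : ℝ)| := by linarith
      have h3 : |(x : ℝ)| ^ (1 / 2 - 3 * ε) ≤ |(x : ℝ)| ^ (1 / 2 - 3 * ε0) :=
        Real.rpow_le_rpow_of_exponent_le hx1 (by linarith)
      have e1 : |(x : ℝ)| ^ (1 / 2 - 3 * ε0) = (|(x : ℝ)| ^ 3) ^ (1 / 6 - ε0) := by
        rw [← Real.rpow_natCast, ← Real.rpow_mul hx00.le]
        congr 1
        push_cast
        ring
      have h4 : (|(x : ℝ)| ^ 3) ^ (1 / 6 - ε0) ≤ Q x y ^ (1 / 6 - ε0) :=
        Real.rpow_le_rpow (by positivity) (le_max_left _ _) (by linarith)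
      have h5 : 0 < |(x : ℝ)| ^ (1 / 2 - 3 * ε) := Real.rpow_pos_of_pos hx00 _
      push_cast at h1
      nlinarith
  · rintro ⟨K, hK, hgcd⟩ T hT
    -- bounded pairs
    have bdd : ∀ M : ℝ, 0 ≤ M → (∀ s t x y : ℤ, IsCoprime s t → x = form (2 * n) a s t →
        y = form (3 * n) b s t → y ^ 2 ≠ x ^ 3 → Q x y ≤ M) →
        ∃ c : ℝ, 0 < c ∧ ∀ s t x y : ℤ, IsCoprime s t → x = form (2 * n) a s t →
          y = form (3 * n) b s t → y ^ 2 ≠ x ^ 3 →
          c * Q x y ^ (1 / 6 - ε0) ≤ tp T (y ^ 2 - x ^ 3) := by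
      intro M hM h
      refine ⟨(M + 1)⁻¹, by positivity, ?_⟩
      intro s t x y hst hx hy hne
      have hne' : y ^ 2 - x ^ 3 ≠ 0 := sub_ne_zero.2 hne
      have h1 := h s t x y hst hx hy hne
      have hQ1 := Q_one hne'
      have h2 : Q x y ^ (1 / 6 - ε0) ≤ Q x y ^ (1 : ℝ) :=
        Real.rpow_le_rpow_of_exponent_le hQ1 (by linarith)
      rw [Real.rpow_one] at h2
      refine le_trans ?_ (one_le_tp T hT _ hne')
      rw [inv_mul_le_iff₀ (by positivity)]
      linarith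
    obtain ⟨c, hc, hb⟩ : ∃ c : ℝ, 0 < c ∧ ∀ s t x y : ℤ, IsCoprime s t →
        x = form (2 * n) a s t → y = form (3 * n) b s t → y ^ 2 ≠ x ^ 3 →
          c * Q x y ^ (1 / 6 - ε0) ≤ tp T (y ^ 2 - x ^ 3) := by
      rcases Nat.eq_zero_or_pos n with hn | hn
      · subst hn
        apply bdd (Q (a 0) (b 0)) (Q_nonneg _ _)
        intro s t x y _ hx hy _
        have : x = a 0 := by rw [hx]; simp [form]
        rw [this]
        have : y = b 0 := by rw [hy]; simp [form]
        rw [this]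
      by_cases hA0 : A = 0
      · apply bdd ((K : ℝ) ^ 2) (by positivity)
        intro s t x y hst hx hy hne
        have hx0 : x = 0 := by rw [hx, ← vA, hA0]; simp [fv]
        have h1 : y ∣ K := hgcd s t y hst (by rw [← hx, hx0]; exact dvd_zero _)
          (by rw [← hy])
        have h2 : |y| ≤ |K| := Int.le_of_dvd (abs_pos.2 hK) ((abs_dvd_abs _ _).2 h1)
        have h3 : |(y : ℝ)| ≤ |(K : ℝ)| := by exact_mod_cast h2
        unfold Q
        rw [hx0]
        push_cast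
        rw [abs_zero, zero_pow (by norm_num)]
        refine max_le (by positivity) ?_
        exact sq_le_sq.2 h3
      by_cases hB0 : B = 0
      · apply bdd (|(K : ℝ)| ^ 3) (by positivity)
        intro s t x y hst hx hy hne
        have hy0 : y = 0 := by rw [hy, ← vB, hB0]; simp [fv]
        have h1 : x ∣ K := hgcd s t x hst (by rw [← hx])
          (by rw [← hy, hy0]; exact dvd_zero _)
        have h2 : |x| ≤ |K| := Int.le_of_dvd (abs_pos.2 hK) ((abs_dvd_abs _ _).2 h1)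
        have h3 : |(x : ℝ)| ≤ |(K : ℝ)| := by exact_mod_cast h2
        unfold Q
        rw [hy0]
        push_cast
        rw [zero_pow (by norm_num)]
        refine max_le ?_ (by positivity)
        exact pow_le_pow_left₀ (abs_nonneg _) h3 3
      obtain ⟨c, hc, hb⟩ := cop_bound A B n hA hB hn K hK (by
        intro s t d hst h1 h2
        rw [vA] at h1
        rw [vB] at h2
        exact hgcd s t d hst h1 h2) T hT ε0 hε00 hε06 hA0 hB0
      refine ⟨c, hc, ?_⟩
      intro s t x y hst hx hy hne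
      have h1 := hb s t hst (by rw [vA, vB, ← hx, ← hy]; exact sub_ne_zero.2 hne)
      rw [vA, vB, ← hx, ← hy] at h1
      exact h1
    refine ⟨c / 2, by positivity, ?_⟩
    intro s t x y hst hx hy hne
    have h1 := hb s t x y hst hx hy hne
    have h2 := strict hc hε0ε hne h1
    unfold tp at h2
    push_cast at h2 ⊢
    exact h2

end Pool.Agent.Results.MP_e734ed_nt.BinaryFamilies
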