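import Pool.Agent.NH26.DT.Main2

/-!
# Hall's inequality for integers with a dominating term

The weak form of Hall's conjecture for all pairs `(x, y)` in which ONE of the two integers is a sum
of boundedly many terms composed of given primes, the first of which dominates (for instance `x` has
at most `k` nonzero digits in a given base and the second one is not close to the first one); the
other integer is arbitrary.

The proof: Taylor expansion of the root, the subspace theorem with real algebraic coefficients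
(starting library) shows that `y` is a sum of boundedly many terms composed of given primes as well,
and then the inequality of Hall for short sums of `S`-units (starting file `HallSUnitSums`) applies.
-/

set_option autoImplicit false

namespace Pool.Agent.Results.MP_e734ed_nt.DominatingTerm

/-- The integers `∑ a_j u_j` (`0 ≤ j ≤ k`), `a_j` integers with `|a_j| ≤ M`, `a_0 ≠ 0`, `u_j` positive
integers all of whose prime factors divide `b`, and `u_j ≤ u_0 ^ (1 - δ)` for all `j ≥ 1`. -/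
def Dominated (k b M : ℕ) (δ : ℝ) : Set ℤ :=
  {x | ∃ (a : Fin (k + 1) → ℤ) (u : Fin (k + 1) → ℕ), (∀ j, |a j| ≤ M) ∧ a 0 ≠ 0 ∧
    (∀ j, 0 < u j ∧ ∀ r : ℕ, r.Prime → r ∣ u j → r ∣ b) ∧
    (∀ j : Fin k, (u j.succ : ℝ) ≤ (u 0 : ℝ) ^ (1 - δ)) ∧ x = ∑ j, a j * u j}

theorem dat {k b M : ℕ} {δ : ℝ} {x : ℤ} (h : x ∈ Dominated k b M δ) :
    ∃ (a : Fin (k + 1) → ℤ) (u : Fin (k + 1) → ℕ), NH26.DT.Dat k b M δ a u x := by
  obtain ⟨a, u, h1, h2, h3, h4, h5⟩ := h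
  exact ⟨a, u, h1, h2, fun j => ⟨(h3 j).1.ne', (h3 j).2⟩, h4, h5⟩

theorem general (p q k b M : ℕ) (hp : 2 ≤ p) (hq : 2 ≤ q) (hb : 2 ≤ b) (δ ε : ℝ) (hδ : 0 < δ)
    (hε : 0 < ε) : ∃ c : ℝ, 0 < c ∧ ∀ x ∈ Dominated k b M δ, ∀ y : ℤ, y ^ q ≠ x ^ p →
      c * (max (|(x : ℝ)| ^ p) (|(y : ℝ)| ^ q)) ^ (1 - 1 / (p : ℝ) - 1 / (q : ℝ) - ε) <
        |(y : ℝ) ^ q - (x : ℝ) ^ p| := by
  obtain ⟨c, hc, h⟩ := NH26.DT.dominant p q k b M hp hq hb δ ε hδ hε
  refine ⟨c / 2, by positivity, fun x hx y hne => ?_⟩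
  obtain ⟨a, u, hD⟩ := dat hx
  have h1 := h a u x y hD hne
  have h2 := NH26.DT.one_le_X hne (by omega) (by omega)
  have h3 : 0 < (max (|(x : ℝ)| ^ p) (|(y : ℝ)| ^ q)) ^ (1 - 1 / (p : ℝ) - 1 / (q : ℝ) - ε) :=
    Real.rpow_pos_of_pos (by linarith) _
  nlinarith

/-- from the general inequality to the form of Hall -/
theorem hall_form {ε c : ℝ} {x y : ℤ} (hε : 0 < ε) (hc : 0 < c) (hne : y ^ 2 ≠ x ^ 3)
    (h : c * (max (|(x : ℝ)| ^ 3) (|(y : ℝ)| ^ 2)) ^ (1 / 6 - min ε (1 / 4) / 3) <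
      |(y : ℝ) ^ 2 - (x : ℝ) ^ 3|) :
    min c (1 / 2) * |(x : ℝ)| ^ (1 / 2 - ε) < |(y : ℝ) ^ 2 - (x : ℝ) ^ 3| := by
  have h0 : 0 < min ε (1 / 4) := lt_min hε (by norm_num)
  have h4 : min ε (1 / 4) ≤ 1 / 4 := min_le_right _ _
  have h5 : min ε (1 / 4) ≤ ε := min_le_left _ _
  have hd := NH26.DT.one_le_diff hne
  have hm : 0 < min c (1 / 2) := lt_min hc (by norm_num)
  have hm1 : min c (1 / 2) ≤ c := min_le_left _ _
  have hm2 : min c (1 / 2) ≤ 1 / 2 := min_le_right _ _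
  by_cases hx : x = 0
  · have h1 : |(x : ℝ)| ^ (1 / 2 - ε) ≤ 1 := by
      rw [hx, Int.cast_zero, abs_zero]
      exact Real.zero_rpow_le_one _
    nlinarith
  · have hx1 : (1 : ℝ) ≤ |(x : ℝ)| := by
      rw [← Int.cast_abs]
      exact_mod_cast Int.one_le_abs hx
    have h1 : |(x : ℝ)| ^ (1 / 2 - ε) ≤ (max (|(x : ℝ)| ^ 3) (|(y : ℝ)| ^ 2)) ^ (1 / 6 - min ε (1 / 4) / 3) := by
      calc |(x : ℝ)| ^ (1 / 2 - ε) ≤ |(x : ℝ)| ^ (1 / 2 - min ε (1 / 4)) :=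
            Real.rpow_le_rpow_of_exponent_le hx1 (by linarith)
        _ = (|(x : ℝ)| ^ 3) ^ (1 / 6 - min ε (1 / 4) / 3) := by
            rw [← Real.rpow_natCast, ← Real.rpow_mul (by linarith)]
            congr 1
            push_cast
            ring
        _ ≤ _ := Real.rpow_le_rpow (by positivity) (le_max_left _ _) (by linarith)
    have h2 : 0 < |(x : ℝ)| ^ (1 / 2 - ε) := Real.rpow_pos_of_pos (by linarith) _
    nlinarith

/-- **Hall's inequality for integers with a dominating term.** Let `k`, `b ≥ 2`, `M`, `δ > 0` and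
`ε > 0` be given and let `Dominated k b M δ` be the set of the integers `∑ a_j u_j` (`0 ≤ j ≤ k`) with
integers `|a_j| ≤ M`, `a_0 ≠ 0`, positive integers `u_j` all of whose prime factors divide `b`, and
`u_j ≤ u_0 ^ (1 - δ)` for `j ≥ 1`.

(1) There is `c > 0` such that `|y² - x³| > c |x|^(1/2 - ε)` for all `x ∈ Dominated k b M δ` and all
integers `y` with `y² ≠ x³`.

(2) There is `c > 0` such that `|y² - x³| > c |x|^(1/2 - ε)` for all `y ∈ Dominated k b M δ` and all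
integers `x` with `y² ≠ x³`.

(3) For all `p, q ≥ 2` there is `c > 0` such that
`|y^q - x^p| > c max (|x|^p, |y|^q) ^ (1 - 1/p - 1/q - ε)` for all `x ∈ Dominated k b M δ` and all
integers `y` with `y^q ≠ x^p`. -/
theorem result (k b M : ℕ) (hb : 2 ≤ b) (δ ε : ℝ) (hδ : 0 < δ) (hε : 0 < ε) :
    (∃ c : ℝ, 0 < c ∧ ∀ x ∈ Dominated k b M δ, ∀ y : ℤ, y ^ 2 ≠ x ^ 3 →
      c * |(x : ℝ)| ^ (1 / 2 - ε) < |(y : ℝ) ^ 2 - (x : ℝ) ^ 3|) ∧
    (∃ c : ℝ, 0 < c ∧ ∀ y ∈ Dominated k b M δ, ∀ x : ℤ, y ^ 2 ≠ x ^ 3 →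
      c * |(x : ℝ)| ^ (1 / 2 - ε) < |(y : ℝ) ^ 2 - (x : ℝ) ^ 3|) ∧
    (∀ p q : ℕ, 2 ≤ p → 2 ≤ q → ∃ c : ℝ, 0 < c ∧ ∀ x ∈ Dominated k b M δ, ∀ y : ℤ, y ^ q ≠ x ^ p →
      c * (max (|(x : ℝ)| ^ p) (|(y : ℝ)| ^ q)) ^ (1 - 1 / (p : ℝ) - 1 / (q : ℝ) - ε) <
        |(y : ℝ) ^ q - (x : ℝ) ^ p|) := by
  have h0 : 0 < min ε (1 / 4) := lt_min hε (by norm_num)
  refine ⟨?_, ?_, fun p q hp hq => general p q k b M hp hq hb δ ε hδ hε⟩
  · obtain ⟨c, hc, h⟩ := general 3 2 k b M (by norm_num) (by norm_num) hb δ (min ε (1 / 4) / 3) hδ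
      (by positivity)
    refine ⟨min c (1 / 2), by positivity, fun x hx y hne => hall_form hε hc hne ?_⟩
    have h1 := h x hx y hne
    have e : (1 - 1 / ((3 : ℕ) : ℝ) - 1 / ((2 : ℕ) : ℝ) - min ε (1 / 4) / 3) = 1 / 6 - min ε (1 / 4) / 3 := by
      norm_num
    rw [e] at h1
    exact h1
  · obtain ⟨c, hc, h⟩ := general 2 3 k b M (by norm_num) (by norm_num) hb δ (min ε (1 / 4) / 3) hδ
      (by positivity)
    refine ⟨min c (1 / 2), by positivity, fun y hy x hne => hall_form hε hc hne ?_⟩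
    have h1 := h y hy x (Ne.symm hne)
    have e : (1 - 1 / ((2 : ℕ) : ℝ) - 1 / ((3 : ℕ) : ℝ) - min ε (1 / 4) / 3) = 1 / 6 - min ε (1 / 4) / 3 := by
      norm_num
    rw [e, abs_sub_comm, max_comm] at h1
    exact h1

end Pool.Agent.Results.MP_e734ed_nt.DominatingTerm
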