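import Mathlib
import Pool.Agent.NH26.HC.Main

/-!
Hall's conjecture for `y² - x³ = u mⁿ` with `n = 2, 3, 4` and `u` composed of given primes.
-/

set_option autoImplicit false

namespace Pool.Agent.Results.MP_e734ed_nt.PowerTimesUnit

open Finset Pool.Agent.NH26.HC

theorem max_pos_of_ne {x y : ℤ} (h : y ^ 2 ≠ x ^ 3) : 1 ≤ max (|(x : ℝ)| ^ 3) ((y : ℝ) ^ 2) := by
  by_cases hx : x = 0
  · have hy : y ≠ 0 := by
      rintro rfl
      apply h
      rw [hx]; ring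
    have h1 : (1 : ℝ) ≤ |(y : ℝ)| := by exact_mod_cast Int.one_le_abs hy
    refine le_max_of_le_right ?_
    rw [← sq_abs]
    nlinarith
  · have h1 : (1 : ℝ) ≤ |(x : ℝ)| := by exact_mod_cast Int.one_le_abs hx
    exact le_max_of_le_left (one_le_pow₀ h1)

/-- the theorem for exponents at most `n / 6` -/
theorem aux (n : ℕ) (hn : n = 2 ∨ n = 3 ∨ n = 4) (T : Finset ℕ) (hT : ∀ p ∈ T, p.Prime) (ε : ℝ)
    (hε : 0 < ε) (hε1 : ε ≤ n / 6) :
    ∃ c : ℝ, 0 < c ∧ ∀ x y u m : ℤ, y ^ 2 ≠ x ^ 3 → TU T u → y ^ 2 - x ^ 3 = u * m ^ n →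
      (∀ p : ℕ, p.Prime → (p : ℤ) ∣ x → (p : ℤ) ∣ y → p ∈ T) →
      c * (max (|(x : ℝ)| ^ 3) ((y : ℝ) ^ 2)) ^ ((n : ℝ) / 6 - ε) ≤ |((y ^ 2 - x ^ 3 : ℤ) : ℝ)| ∧
      (IsCoprime x y →
        c * (max (|(x : ℝ)| ^ 3) ((y : ℝ) ^ 2)) ^ ((n : ℝ) / 6 - ε) ≤ |(m : ℝ)| ^ n) := by
  have hn0 : (0 : ℝ) < n := by
    rcases hn with rfl | rfl | rfl <;> norm_num
  have hn6 : (n : ℝ) ≤ 6 := by
    rcases hn with rfl | rfl | rfl <;> norm_num
  set e' : ℝ := 6 * ε / n with he'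
  have he'0 : 0 < e' := by positivity
  have he'1 : e' ≤ 1 := by
    rw [he', div_le_one hn0]
    linarith
  obtain ⟨κ, hκ, hb⟩ := main1 n hn T hT e' he'0 he'1
  have hexp : ((1 - e') / 6) * n = (n : ℝ) / 6 - ε := by
    rw [he']; field_simp
  set f : ℝ := (n : ℝ) / 6 - ε with hf
  have hf0 : 0 ≤ f := by rw [hf]; linarith
  have hf1 : f ≤ 1 := by rw [hf]; linarith
  -- the n-th power of the basic bound
  have hpow : ∀ (X M : ℝ), 0 ≤ X → κ * X ^ ((1 - e') / 6) ≤ M → κ ^ n * X ^ f ≤ M ^ n := by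
    intro X M hX h
    have h1 := pow_le_pow_left₀ (by positivity) h n
    rw [mul_pow, ← Real.rpow_mul_natCast hX, hexp] at h1
    exact h1
  have hm_ne : ∀ x y u m : ℤ, y ^ 2 ≠ x ^ 3 → y ^ 2 - x ^ 3 = u * m ^ n → u ≠ 0 ∧ m ≠ 0 := by
    intro x y u m hne h
    have h0 : u * m ^ n ≠ 0 := by
      rw [← h]; exact sub_ne_zero.2 hne
    refine ⟨left_ne_zero_of_mul h0, ?_⟩
    rintro rfl
    apply h0
    have : n ≠ 0 := by rintro rfl; norm_num at hn0
    rw [zero_pow this, mul_zero]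
  refine ⟨κ ^ n, by positivity, ?_⟩
  intro x y u m hne hTU h hgcd
  constructor
  · -- induction
    have key : ∀ N : ℕ, ∀ x y u m : ℤ, (y ^ 2 - x ^ 3).natAbs = N → y ^ 2 ≠ x ^ 3 → TU T u →
        (∀ p ∈ T, ¬ (p : ℤ) ∣ m) → y ^ 2 - x ^ 3 = u * m ^ n →
        (∀ p : ℕ, p.Prime → (p : ℤ) ∣ x → (p : ℤ) ∣ y → p ∈ T) →
        κ ^ n * (max (|(x : ℝ)| ^ 3) ((y : ℝ) ^ 2)) ^ f ≤ |((y ^ 2 - x ^ 3 : ℤ) : ℝ)| := by
      intro N
      induction N using Nat.strong_induction_on with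
      | _ N ih =>
        intro x y u m hN hne hTU hmT h hgcd
        obtain ⟨hu0, hm0⟩ := hm_ne x y u m hne h
        by_cases hmin : ∀ p : ℕ, p.Prime → ¬ ((p : ℤ) ^ 2 ∣ x ∧ (p : ℤ) ^ 3 ∣ y)
        · have h1 := hb x y u m hu0 hm0 hTU hmT hgcd hmin h
          have h2 := hpow _ _ (le_trans (by positivity) (le_max_left _ _)) h1
          refine h2.trans ?_
          rw [h]
          push_cast
          rw [abs_mul, abs_pow]
          have h3 : (1 : ℝ) ≤ |(u : ℝ)| := by exact_mod_cast Int.one_le_abs hu0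
          nlinarith [pow_nonneg (abs_nonneg (m : ℝ)) n]
        · push Not at hmin
          obtain ⟨p, hp, ⟨x1, hx1⟩, ⟨y1, hy1⟩⟩ := hmin
          have hp0 : (p : ℤ) ≠ 0 := by exact_mod_cast hp.ne_zero
          have hpT : p ∈ T := hgcd p hp ⟨p * x1, by rw [hx1]; ring⟩ ⟨p ^ 2 * y1, by rw [hy1]; ring⟩
          have hk : y ^ 2 - x ^ 3 = p ^ 6 * (y1 ^ 2 - x1 ^ 3) := by rw [hx1, hy1]; ring
          have hk0 : y1 ^ 2 - x1 ^ 3 ≠ 0 := by
            intro h0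
            apply hne
            rw [h0, mul_zero] at hk
            linarith
          have hcop : IsCoprime ((p : ℤ) ^ 6) (m ^ n) := by
            apply IsCoprime.pow
            rw [Nat.prime_iff_prime_int] at hp
            exact (hp.coprime_iff_not_dvd).2 (hmT p hpT)
          obtain ⟨u1, hu1⟩ : (p : ℤ) ^ 6 ∣ u := by
            apply hcop.dvd_of_dvd_mul_right
            rw [← h, hk]
            exact ⟨_, rfl⟩
          have h1 : y1 ^ 2 - x1 ^ 3 = u1 * m ^ n := by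
            apply mul_left_cancel₀ (pow_ne_zero 6 hp0)
            rw [← hk, h, hu1]; ring
          have hlt : (y1 ^ 2 - x1 ^ 3).natAbs < N := by
            rw [← hN, hk, Int.natAbs_mul, Int.natAbs_pow, Int.natAbs_natCast]
            have hpos : 0 < (y1 ^ 2 - x1 ^ 3).natAbs := Int.natAbs_pos.2 hk0
            have : 1 < p ^ 6 := Nat.one_lt_pow (by norm_num) hp.one_lt
            nlinarith
          have h2 := ih _ hlt x1 y1 u1 m rfl (fun h0 => hk0 (sub_eq_zero.2 h0))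
            (fun q hq hqd => hTU q hq (by rw [hu1]; exact hqd.mul_left _)) hmT h1
            (fun q hq hqx hqy => hgcd q hq (by rw [hx1]; exact hqx.mul_left _)
              (by rw [hy1]; exact hqy.mul_left _))
          have hp1 : (1 : ℝ) ≤ p := by exact_mod_cast hp.one_lt.le
          have hp6 : (1 : ℝ) ≤ (p : ℝ) ^ 6 := one_le_pow₀ hp1
          have e1 : max (|(x : ℝ)| ^ 3) ((y : ℝ) ^ 2) =
              (p : ℝ) ^ 6 * max (|(x1 : ℝ)| ^ 3) ((y1 : ℝ) ^ 2) := by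
            rw [hx1, hy1]
            push_cast
            rw [abs_mul, abs_of_nonneg (by positivity : (0 : ℝ) ≤ (p : ℝ) ^ 2),
              mul_max_of_nonneg _ _ (by positivity : (0 : ℝ) ≤ (p : ℝ) ^ 6)]
            congr 1 <;> ring
          have hX0 : (0 : ℝ) ≤ max (|(x1 : ℝ)| ^ 3) ((y1 : ℝ) ^ 2) :=
            le_trans (by positivity) (le_max_left _ _)
          rw [e1, Real.mul_rpow (by positivity) hX0, hk]
          push_cast
          rw [abs_mul, abs_of_nonneg (by positivity : (0 : ℝ) ≤ (p : ℝ) ^ 6)]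
          have h5 : ((p : ℝ) ^ 6) ^ f ≤ (p : ℝ) ^ 6 := by
            have := Real.rpow_le_rpow_of_exponent_le hp6 hf1
            rwa [Real.rpow_one] at this
          push_cast at h2
          calc κ ^ n * (((p : ℝ) ^ 6) ^ f * (max (|(x1 : ℝ)| ^ 3) ((y1 : ℝ) ^ 2)) ^ f)
              = ((p : ℝ) ^ 6) ^ f * (κ ^ n * (max (|(x1 : ℝ)| ^ 3) ((y1 : ℝ) ^ 2)) ^ f) := by ring
            _ ≤ (p : ℝ) ^ 6 * |(y1 : ℝ) ^ 2 - (x1 : ℝ) ^ 3| :=
                mul_le_mul h5 h2 (by positivity) (by positivity)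
    obtain ⟨hu0, hm0⟩ := hm_ne x y u m hne h
    obtain ⟨w, m', e1, hw, hm', hTw, hlast⟩ := split_T T hT m hm0
    exact key _ x y (u * w ^ n) m' rfl hne (TU_mul hTU (TU_pow hTw n)) hlast
      (by rw [h, e1]; ring) hgcd
  · intro hxy
    obtain ⟨hu0, hm0⟩ := hm_ne x y u m hne h
    obtain ⟨w, m', e1, hw, hm', hTw, hlast⟩ := split_T T hT m hm0
    have nocommon : ∀ p : ℕ, p.Prime → (p : ℤ) ∣ x → ¬ (p : ℤ) ∣ y := by
      intro p hp hpx hpy
      obtain ⟨a, b, hab⟩ := hxy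
      have : (p : ℤ) ∣ 1 := by
        rw [← hab]
        exact dvd_add (hpx.mul_left _) (hpy.mul_left _)
      have := Int.natCast_dvd_natCast.1 (by exact_mod_cast this : (p : ℤ) ∣ ((1 : ℕ) : ℤ))
      exact absurd (Nat.dvd_one.1 this) hp.one_lt.ne'
    have h1 := hb x y (u * w ^ n) m' (mul_ne_zero hu0 (pow_ne_zero _ hw)) hm'
      (TU_mul hTU (TU_pow hTw n)) hlast
      (fun p hp hpx hpy => absurd hpy (nocommon p hp hpx))
      (fun p hp h2 => nocommon p hp ((dvd_pow_self _ (by norm_num)).trans h2.1)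
        ((dvd_pow_self _ (by norm_num)).trans h2.2))
      (by rw [h, e1]; ring)
    have h2 : |(m' : ℝ)| ≤ |(m : ℝ)| := by
      rw [e1]
      push_cast
      rw [abs_mul]
      have h3 : (1 : ℝ) ≤ |(w : ℝ)| := by exact_mod_cast Int.one_le_abs hw
      nlinarith [abs_nonneg (m' : ℝ)]
    exact hpow _ _ (le_trans (by positivity) (le_max_left _ _)) (h1.trans h2)

/-- **Hall's conjecture for products of a power and given primes.**  Let `n` be `2`, `3` or `4`, let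
`T` be a finite set of primes and let `ε > 0`.  There is `c > 0` such that every pair of integers
`x`, `y` with `y² ≠ x³` whose common prime factors all lie in `T` and for which
`y² - x³ = u mⁿ` with all prime factors of `u` in `T` satisfies
`|y² - x³| > c max(|x|³, y²)^(n/6 - ε)`, so in particular `|y² - x³| > c |x|^(n/2 - 3 ε)`.
If `x` and `y` are coprime then even `|m|ⁿ > c max(|x|³, y²)^(n/6 - ε)`. -/
theorem result (n : ℕ) (hn : 2 ≤ n ∧ n ≤ 4) (T : Finset ℕ) (hT : ∀ p ∈ T, p.Prime) (ε : ℝ)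
    (hε : 0 < ε) :
    ∃ c : ℝ, 0 < c ∧ ∀ x y u m : ℤ, y ^ 2 ≠ x ^ 3 →
      (∀ p : ℕ, p.Prime → (p : ℤ) ∣ x → (p : ℤ) ∣ y → p ∈ T) →
      (∀ p : ℕ, p.Prime → (p : ℤ) ∣ u → p ∈ T) →
      y ^ 2 - x ^ 3 = u * m ^ n →
      c * (max (|(x : ℝ)| ^ 3) ((y : ℝ) ^ 2)) ^ ((n : ℝ) / 6 - ε) < |(y : ℝ) ^ 2 - (x : ℝ) ^ 3| ∧
      c * |(x : ℝ)| ^ ((n : ℝ) / 2 - 3 * ε) < |(y : ℝ) ^ 2 - (x : ℝ) ^ 3| ∧
      (IsCoprime x y →
        c * (max (|(x : ℝ)| ^ 3) ((y : ℝ) ^ 2)) ^ ((n : ℝ) / 6 - ε) < |(m : ℝ)| ^ n) := by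
  have hn' : n = 2 ∨ n = 3 ∨ n = 4 := by omega
  have hn0 : (0 : ℝ) < n := by
    rcases hn' with rfl | rfl | rfl <;> norm_num
  set ε0 := min ε ((n : ℝ) / 6) with hε0
  have hε00 : 0 < ε0 := lt_min hε (by positivity)
  obtain ⟨c, hc, hb⟩ := aux n hn' T hT ε0 hε00 (min_le_right _ _)
  refine ⟨c / 2, by positivity, ?_⟩
  intro x y u m hne hgcd hTU h
  obtain ⟨h1, h2⟩ := hb x y u m hne hTU h hgcd
  have hX1 := max_pos_of_ne hne
  set X := max (|(x : ℝ)| ^ 3) ((y : ℝ) ^ 2) with hX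
  have hX0 : 0 < X := by linarith
  have hle : X ^ ((n : ℝ) / 6 - ε) ≤ X ^ ((n : ℝ) / 6 - ε0) :=
    Real.rpow_le_rpow_of_exponent_le hX1 (by linarith [min_le_left ε ((n : ℝ) / 6)])
  have hpos : 0 < X ^ ((n : ℝ) / 6 - ε) := Real.rpow_pos_of_pos hX0 _
  have hstr : c / 2 * X ^ ((n : ℝ) / 6 - ε) < c * X ^ ((n : ℝ) / 6 - ε0) := by nlinarith
  push_cast at h1
  refine ⟨lt_of_lt_of_le hstr h1, ?_, fun hxy => lt_of_lt_of_le hstr (h2 hxy)⟩
  have habs : 0 < |(y : ℝ) ^ 2 - (x : ℝ) ^ 3| := by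
    rw [abs_pos, sub_ne_zero]
    intro h0
    exact hne (by exact_mod_cast h0)
  by_cases hx : x = 0
  · -- x = 0
    have hy : y ≠ 0 := by
      rintro rfl
      apply hne
      rw [hx]; ring
    by_cases he : (n : ℝ) / 2 - 3 * ε = 0
    · rw [he, Real.rpow_zero, mul_one]
      have h3 : c / 2 < c * X ^ ((n : ℝ) / 6 - ε0) := by
        have he' : 0 ≤ (n : ℝ) / 6 - ε0 := by linarith [min_le_right ε ((n : ℝ) / 6)]
        have := Real.one_le_rpow hX1 he'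
        nlinarith
      exact lt_of_lt_of_le h3 h1
    · rw [hx]
      push_cast
      rw [abs_zero, Real.zero_rpow he, mul_zero]
      rw [hx] at habs
      push_cast at habs
      exact habs
  · have hx1 : (1 : ℝ) ≤ |(x : ℝ)| := by exact_mod_cast Int.one_le_abs hx
    have hx0 : (0 : ℝ) < |(x : ℝ)| := by linarith
    have e1 : |(x : ℝ)| ^ ((n : ℝ) / 2 - 3 * ε) = (|(x : ℝ)| ^ 3) ^ ((n : ℝ) / 6 - ε) := by
      rw [← Real.rpow_natCast, ← Real.rpow_mul hx0.le]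
      congr 1
      push_cast
      ring
    rw [e1]
    have hx31 : 1 ≤ |(x : ℝ)| ^ 3 := one_le_pow₀ hx1
    have h3 : (|(x : ℝ)| ^ 3) ^ ((n : ℝ) / 6 - ε) ≤ (|(x : ℝ)| ^ 3) ^ ((n : ℝ) / 6 - ε0) :=
      Real.rpow_le_rpow_of_exponent_le hx31 (by linarith [min_le_left ε ((n : ℝ) / 6)])
    have h4 : (|(x : ℝ)| ^ 3) ^ ((n : ℝ) / 6 - ε0) ≤ X ^ ((n : ℝ) / 6 - ε0) :=
      Real.rpow_le_rpow (by positivity) (le_max_left _ _)
        (by linarith [min_le_right ε ((n : ℝ) / 6)])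
    have h5 : 0 < (|(x : ℝ)| ^ 3) ^ ((n : ℝ) / 6 - ε) := Real.rpow_pos_of_pos (by linarith) _
    refine lt_of_lt_of_le ?_ h1
    nlinarith

end Pool.Agent.Results.MP_e734ed_nt.PowerTimesUnit
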